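import Pool.Agent.Helper99.PG.GoalsF

/-!
PROJECT C2, packet FC (helper28).
-/

namespace Pool.Agent.Helper28.PG

open Pool.Agent.Helper36.SC Pool.Agent.Helper37.Arb Pool.Agent.Helper52.C2 Pool.Agent.Helper99.PG
open scoped Classical

section ss

variable {V : Type} (S : Skel V)

theorem ss_ul (v : Option V) : S.D.SameSide (v, .left) (S.D.underNext v, .left) := by
  have h := AltDiagram.SameSide.underLeft (D := S.D) v
  rwa [S.pos, S.pos] at h

theorem ss_ur (v : Option V) : S.D.SameSide (v, .front) (S.D.underNext v, .back) := by
  have h := AltDiagram.SameSide.underRight (D := S.D) v
  rwa [S.pos, S.pos] at h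

theorem ss_ol (v : Option V) : S.D.SameSide (v, .front) (S.D.overNext v, .back) := by
  have h := AltDiagram.SameSide.overLeft (D := S.D) v
  rwa [S.pos, S.pos] at h

theorem ss_or (v : Option V) : S.D.SameSide (v, .right) (S.D.overNext v, .right) := by
  have h := AltDiagram.SameSide.overRight (D := S.D) v
  rwa [S.pos, S.pos] at h

theorem rg {c c' : Option V × Corner} (h : S.D.SameSide c c') : S.D.region c = S.D.region c' :=
  Quotient.sound (Relation.EqvGen.rel _ _ h)

/-- colour of a corner -/
def col : Corner → ℕ
  | .left => 0
  | .right => 1
  | .front => 2
  | .back => 2

theorem col_ss {c c' : Option V × Corner} (h : S.D.SameSide c c') : col c.2 = col c'.2 := by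
  cases h <;> simp [S.pos, col]

theorem col_rg {c c' : Option V × Corner} (h : S.D.region c = S.D.region c') :
    col c.2 = col c'.2 := by
  have h1 : Relation.EqvGen S.D.SameSide c c' := Quotient.exact h
  induction h1 with
  | rel x y hxy => exact col_ss S hxy
  | refl x => rfl
  | symm x y _ ih => exact (ih (Quotient.sound (by assumption))).symm
  | trans x y z _ _ ih1 ih2 =>
    exact (ih1 (Quotient.sound (by assumption))).trans (ih2 (Quotient.sound (by assumption)))

end ss

/-- FCONN -/
theorem fConn : GoalFConn := by
  intro hE V _ S
  refine ⟨?_, ?_⟩
  · intro A f hf
    have key : ∀ (v v' : V) (X X' : Corner), S.D.region (some v, X) = S.D.region (some v', X') →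
        f v = f v' := fun v v' X X' h => hE S A (fun c => f c.1) hf v v' X X' h
    have ha : S.D.underNext none ≠ none := by
      intro h
      have := S.D.underNext.injective (h.trans S.hl.symm)
      exact absurd this (by simp)
    have hb : S.D.overNext none ≠ none := by
      intro h
      have := S.D.overNext.injective (h.trans S.hr.symm)
      exact absurd this (by simp)
    obtain ⟨wl, hwl⟩ := Option.ne_none_iff_exists'.1 ha
    obtain ⟨wr, hwr⟩ := Option.ne_none_iff_exists'.1 hb
    have e1 : f S.l = f wl := by
      apply key _ _ .left .left
      have h1 := rg S (ss_ul S (some S.l))
      have h2 := rg S (ss_ul S none)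
      rw [S.hl] at h1
      rw [hwl] at h2
      exact h1.trans h2
    have e2 : f S.r = f wr := by
      apply key _ _ .right .right
      have h1 := rg S (ss_or S (some S.r))
      have h2 := rg S (ss_or S none)
      rw [S.hr] at h1
      rw [hwr] at h2
      exact h1.trans h2
    have e3 : f wl = f wr := by
      apply key _ _ .back .back
      have h1 := rg S (ss_ur S none)
      have h2 := rg S (ss_ol S none)
      rw [hwl] at h1
      rw [hwr] at h2
      exact h1.symm.trans h2
    have hU : ∀ v : V, f v = f S.l := by
      have hS := S.connected {x : Option V | (x.map f).getD (f S.l) = f S.l} ⟨none, rfl⟩ ?_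
      · intro v
        have h1 : (some v : Option V) ∈ {x : Option V | (x.map f).getD (f S.l) = f S.l} := by
          rw [hS]
          trivial
        exact h1
      · intro x hx
        refine ⟨?_, ?_⟩
        · cases x with
          | none =>
            rw [hwr]
            change f wr = f S.l
            rw [← e3, ← e1]
          | some v =>
            have hx' : f v = f S.l := hx
            rcases hy : S.D.overNext (some v) with _ | w
            · rfl
            · change f w = f S.l
              rw [← hx']
              apply key _ _ .right .right
              have h1 := rg S (ss_or S (some v))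
              rw [hy] at h1
              exact h1.symm
        · cases x with
          | none =>
            rw [hwl]
            change f wl = f S.l
            rw [← e1]
          | some v =>
            have hx' : f v = f S.l := hx
            rcases hy : S.D.underNext (some v) with _ | w
            · rfl
            · change f w = f S.l
              rw [← hx']
              apply key _ _ .left .left
              have h1 := rg S (ss_ul S (some v))
              rw [hy] at h1
              exact h1.symm
    intro v v'
    rw [hU v, hU v']
  · intro o o'
    refine ⟨?_, ?_, ?_, ?_, ?_⟩ <;>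
      · intro h
        have := col_rg S h
        simp [col] at this

end Pool.Agent.Helper28.PG
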